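import Mathlib
import Pool.Agent.V11205.ME5

/-!
# Large sets of integers with small multiplicative energy

For every `ε > 0` there are `α, β ≥ 0` with `α + β < 1/4 + ε` and sets `B_N ⊆ {1, …, N}` of density
`(log N) ^ (-α)` whose mixed multiplicative energy is `≪ N |B_N| (log N) ^ β`.  The sets consist of
integers with at most `(1/2) log log N` prime factors counted with multiplicity.
-/

namespace Pool.Agent.Results.MP_2883d2_nt.SmallEnergySets

open Finset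

/-- The mixed multiplicative energy `E_×(B, N)`: the number of quadruples `((a, b), (c, d))` with
`a, c ∈ B`, `1 ≤ b, d ≤ N` and `a b = c d`. -/
def energy (B : Finset ℕ) (N : ℕ) : ℕ :=
  (((B ×ˢ Icc 1 N) ×ˢ (B ×ˢ Icc 1 N)).filter (fun q => q.1.1 * q.1.2 = q.2.1 * q.2.2)).card

/-- The sets `B N` have density `(log N) ^ (-α)`:
`c N (log N) ^ (-α) ≤ |B N| ≤ C N (log N) ^ (-α)` for constants `0 < c ≤ C` and all large `N`. -/
def HasDensity (B : ℕ → Finset ℕ) (α : ℝ) : Prop :=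
  ∃ c C : ℝ, 0 < c ∧ c ≤ C ∧ ∃ N₀ : ℕ, ∀ N : ℕ, N₀ ≤ N →
    c * (N * Real.log N ^ (-α)) ≤ (B N).card ∧ ((B N).card : ℝ) ≤ C * (N * Real.log N ^ (-α))

/-- For every `ε > 0` there are `α, β ≥ 0` with `α + β < 1/4 + ε` and `B_N ⊆ {1, …, N}` of density
`(log N) ^ (-α)` with `E_×(B_N, N) ≤ K N |B_N| (log N) ^ β` for all large `N`. -/
theorem result (ε : ℝ) (hε : 0 < ε) : ∃ α β : ℝ, 0 ≤ α ∧ 0 ≤ β ∧ α + β < 1 / 4 + ε ∧
    ∃ B : ℕ → Finset ℕ, (∀ N, B N ⊆ Icc 1 N) ∧ HasDensity B α ∧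
      ∃ K : ℝ, ∃ N₀ : ℕ, ∀ N : ℕ, N₀ ≤ N →
        (energy (B N) N : ℝ) ≤ K * (N * (B N).card * Real.log N ^ β) := by
  obtain ⟨α, β, hα, hβ, hsum, B, hB, ⟨c, C, hc, N0, hN0⟩, K, N1, hN1⟩ :=
    Pool.Agent.V11205.ME.main ε hε
  refine ⟨α, β, hα, hβ, hsum, B, hB, ⟨c, max c C, hc, le_max_left _ _, max N0 2, fun N hN => ?_⟩,
    K, N1, hN1⟩
  obtain ⟨h1, h2⟩ := hN0 N ((le_max_left _ _).trans hN)
  have hN2 : 2 ≤ N := (le_max_right _ _).trans hN
  have hl : 0 < Real.log N := Real.log_pos (by exact_mod_cast (by omega : 1 < N))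
  refine ⟨h1, h2.trans (mul_le_mul_of_nonneg_right (le_max_right _ _) (by positivity))⟩

end Pool.Agent.Results.MP_2883d2_nt.SmallEnergySets
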